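import Pool.Agent.Helper61.BT.Goals
import Pool.Agent.Helper74.VF.TR2

/-!
# Packet T2B
-/

set_option autoImplicit false

namespace Pool.Agent.Helper74.BT

universe u

theorem t2b : Pool.Agent.Helper61.BT.T2bStmt.{u} := by
  intro H₁ H₂ _ _ _ _ _ _ C P hP1 hP2 hP3 k v hv η hη
  obtain ⟨S, h1, h2, h3⟩ := Pool.Agent.Helper74.VF.approx C k v η hη
  refine ⟨S, h1, fun j => ?_, h3⟩
  have h4 : C.range.topologicalClosure.starProjection (v j) = P (v j) := by
    apply Submodule.eq_starProjection_of_mem_orthogonal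
    · exact hv j
    · rw [Submodule.orthogonal_closure, Submodule.mem_orthogonal']
      rintro _ ⟨x, rfl⟩
      change inner ℝ (v j - P (v j)) (C x) = 0
      rw [inner_sub_left, hP1, hP3, sub_self]
  have h5 := h2 j
  rw [h4] at h5
  exact h5

end Pool.Agent.Helper74.BT
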